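import Pool.Agent.Helper43.RK.StI

/-!
# Project RK, module ICM: the conjugates commute
-/

set_option autoImplicit false

namespace Pool.Agent.Helper29.RK

open Pool.Agent.Helper43.RK

theorem hICM : StICM := by
  intro G _ a t q ha h
  have conj : ∀ i j : ℤ, t ^ (-j) * cj a t i * t ^ j = cj a t (i + j) := by
    intro i j
    unfold cj
    have e1 : -(i + j) = -j + -i := by ring
    rw [e1, zpow_add, zpow_add]
    group
  have inv : ∀ i : ℤ, cj a t i * cj a t i = 1 := by
    intro i
    unfold cj
    calc t ^ (-i) * a * t ^ i * (t ^ (-i) * a * t ^ i) = t ^ (-i) * (a * a) * t ^ i := by group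
      _ = 1 := by rw [ha]; group
  have hmul : ∀ x y j : ℤ, t ^ (-j) * (cj a t x * cj a t y) * t ^ j =
      cj a t (x + j) * cj a t (y + j) := by
    intro x y j
    rw [← conj x j, ← conj y j]
    group
  have h0 : cj a t 0 = a := by
    unfold cj
    simp
  have rel : ∀ m : ℤ, cj a t (m + 1 - q) = cj a t m * cj a t (m + 1) := by
    intro m
    have h1 : cj a t (1 - q) = cj a t 0 * cj a t 1 := by rw [h0]; exact h
    have h2 := hmul 0 1 m
    rw [← h1, conj] at h2
    have e1 : m + 1 - q = 1 - q + m := by ring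
    have e2 : (0 : ℤ) + m = m := by ring
    have e3 : (1 : ℤ) + m = m + 1 := by ring
    rw [e2, e3] at h2
    rw [e1]
    exact h2
  -- shifting
  have shift : ∀ x y j : ℤ, Commute (cj a t x) (cj a t y) →
      Commute (cj a t (x + j)) (cj a t (y + j)) := by
    intro x y j hc
    have h1 := hmul x y j
    have h2 := hmul y x j
    rw [hc.eq] at h1
    change cj a t (x + j) * cj a t (y + j) = cj a t (y + j) * cj a t (x + j)
    rw [← h1, ← h2]
  have D0 : ∀ m : ℤ, Commute (cj a t 0) (cj a t m) → ∀ x : ℤ,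
      Commute (cj a t x) (cj a t (x + m)) := by
    intro m hm x
    have h1 := shift 0 m x hm
    have e1 : (0 : ℤ) + x = x := by ring
    have e2 : m + x = x + m := by ring
    rw [e1, e2] at h1
    exact h1
  have Dneg : ∀ m : ℤ, Commute (cj a t 0) (cj a t m) → Commute (cj a t 0) (cj a t (-m)) := by
    intro m hm
    have h1 := D0 m hm (-m)
    have e1 : -m + m = (0 : ℤ) := by ring
    rw [e1] at h1
    exact h1.symm
  -- `1 ∈ D`
  have h01 : Commute (cj a t 0) (cj a t 1) := by
    have h1 := rel 0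
    have h2 := inv (0 + 1 - q)
    rw [h1] at h2
    have e1 : (0 : ℤ) + 1 = 1 := by ring
    rw [e1] at h2
    change cj a t 0 * cj a t 1 = cj a t 1 * cj a t 0
    have ha0 := inv 0
    have ha1 := inv 1
    have i0 : (cj a t 0)⁻¹ = cj a t 0 := inv_eq_of_mul_eq_one_left ha0
    have i1 : (cj a t 1)⁻¹ = cj a t 1 := inv_eq_of_mul_eq_one_left ha1
    have h3 : (cj a t 0 * cj a t 1)⁻¹ = cj a t 0 * cj a t 1 := inv_eq_of_mul_eq_one_left h2
    rw [mul_inv_rev, i0, i1] at h3
    exact h3.symm
  -- `q ∈ D`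
  have h0q : Commute (cj a t 0) (cj a t q) := by
    have h1 : Commute (cj a t 1) (cj a t (0 + 1 - q)) := by
      rw [rel 0]
      have e1 : (0 : ℤ) + 1 = 1 := by ring
      rw [e1]
      exact (h01.symm).mul_right (Commute.refl _)
    have h2 := shift 1 (0 + 1 - q) (q - 1) h1
    have e1 : (1 : ℤ) + (q - 1) = q := by ring
    have e2 : (0 : ℤ) + 1 - q + (q - 1) = 0 := by ring
    rw [e1, e2] at h2
    exact h2.symm
  have main : ∀ i : ℕ, Commute (cj a t 0) (cj a t (i : ℤ)) ∧
      Commute (cj a t 0) (cj a t (q - (i : ℤ))) := by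
    intro i
    induction i with
    | zero =>
      constructor
      · simp only [Nat.cast_zero]
        exact Commute.refl _
      · simp only [Nat.cast_zero, sub_zero]
        exact h0q
    | succ i ih =>
      obtain ⟨ih1, ih2⟩ := ih
      have hB : Commute (cj a t 0) (cj a t (q - ((i + 1 : ℕ) : ℤ))) := by
        have r1 := rel (q - (i : ℤ) - 1)
        have e1 : q - (i : ℤ) - 1 + 1 - q = -(i : ℤ) := by ring
        have e2 : q - (i : ℤ) - 1 + 1 = q - (i : ℤ) := by ring
        rw [e1, e2] at r1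
        have r2 : cj a t (q - (i : ℤ) - 1) = cj a t (-(i : ℤ)) * cj a t (q - (i : ℤ)) := by
          rw [r1, mul_assoc, inv, mul_one]
        have e3 : q - ((i + 1 : ℕ) : ℤ) = q - (i : ℤ) - 1 := by push_cast; ring
        rw [e3, r2]
        exact (Dneg _ ih1).mul_right ih2
      have hA : Commute (cj a t 0) (cj a t ((i + 1 : ℕ) : ℤ)) := by
        have r1 := rel (i : ℤ)
        have r2 : cj a t ((i : ℤ) + 1) = cj a t (i : ℤ) * cj a t ((i : ℤ) + 1 - q) := by
          rw [r1, ← mul_assoc, inv, one_mul]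
        have e3 : ((i + 1 : ℕ) : ℤ) = (i : ℤ) + 1 := by push_cast; ring
        have e4 : (i : ℤ) + 1 - q = -(q - ((i + 1 : ℕ) : ℤ)) := by push_cast; ring
        rw [e3, r2]
        refine ih1.mul_right ?_
        rw [e4]
        exact Dneg _ hB
      exact ⟨hA, hB⟩
  have all : ∀ m : ℤ, Commute (cj a t 0) (cj a t m) := by
    intro m
    rcases Int.natAbs_eq m with hm | hm
    · rw [hm]
      exact (main m.natAbs).1
    · rw [hm]
      exact Dneg _ (main m.natAbs).1
  intro i j
  have h1 := D0 (j - i) (all (j - i)) i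
  have e1 : i + (j - i) = j := by ring
  rw [e1] at h1
  exact h1.eq

end Pool.Agent.Helper29.RK
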