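import Pool.Agent.Helper43.RK.St

/-!
# Project RK, module RI1: `1` and `e` are good
-/

set_option autoImplicit false

namespace Pool.Agent.Helper29.RK

open Pool.Agent.Helper43.RK

variable {R : Type} [CommRing R] {G : Type} [Group G]

private theorem key [Finite R] (hRS1 : StRS1) (D : Dt R G) {t : G} (htt : t * t = 1)
    (hQ : D.Q * t * D.Q⁻¹ = t) {u v : R} (h0 : t * D.a u * t = D.a v) :
    ∀ γ, D.bar γ = γ → t * D.a (γ * u) * t = D.a (γ * v) := by
  let T : AddSubgroup R :=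
    { carrier := {γ | t * D.a (γ * u) * t = D.a (γ * v)}
      add_mem' := by
        intro x x' hx hx'
        change t * D.a (x * u) * t = D.a (x * v) at hx
        change t * D.a (x' * u) * t = D.a (x' * v) at hx'
        change t * D.a ((x + x') * u) * t = D.a ((x + x') * v)
        rw [add_mul, add_mul, D.a_add, D.a_add, ← hx, ← hx']
        calc t * (D.a (x * u) * D.a (x' * u)) * t =
            t * D.a (x * u) * 1 * D.a (x' * u) * t := by group
          _ = t * D.a (x * u) * (t * t) * D.a (x' * u) * t := by rw [htt]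
          _ = t * D.a (x * u) * t * (t * D.a (x' * u) * t) := by group
      zero_mem' := by
        change t * D.a (0 * u) * t = D.a (0 * v)
        rw [zero_mul, zero_mul, D.a0, mul_one, htt]
      neg_mem' := by
        intro x hx
        have h : -x = x := by
          have := D.two x
          exact neg_eq_of_add_eq_zero_left this
        rw [h]
        exact hx }
  have hT : ∀ i : ℕ, (D.e : R) ^ i ∈ T := by
    intro i
    induction i with
    | zero =>
      change t * D.a ((D.e : R) ^ 0 * u) * t = D.a ((D.e : R) ^ 0 * v)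
      rw [pow_zero, one_mul, one_mul]
      exact h0
    | succ i ih =>
      change t * D.a ((D.e : R) ^ i * u) * t = D.a ((D.e : R) ^ i * v) at ih
      change t * D.a ((D.e : R) ^ (i + 1) * u) * t = D.a ((D.e : R) ^ (i + 1) * v)
      have e1 : (D.e : R) ^ (i + 1) * u = (D.e : R) * ((D.e : R) ^ i * u) := by ring
      have e2 : (D.e : R) ^ (i + 1) * v = (D.e : R) * ((D.e : R) ^ i * v) := by ring
      rw [e1, e2, ← D.aQinv, ← D.aQinv, ← ih]
      calc t * (D.Q * D.a ((D.e : R) ^ i * u) * D.Q⁻¹) * t =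
          (D.Q * t * D.Q⁻¹) * (D.Q * D.a ((D.e : R) ^ i * u) * D.Q⁻¹) * (D.Q * t * D.Q⁻¹) := by
            rw [hQ]
        _ = D.Q * (t * D.a ((D.e : R) ^ i * u) * t) * D.Q⁻¹ := by group
  exact fun γ hγ => (hRS1 R G D).2.1 T hT γ hγ

private theorem gd_one (D : Dt R G) (h1 : D.n * D.a (D.y : R) * D.n = D.b 1)
    (h2 : D.n * D.a 1 * D.n = D.c) : D.Gd 1 := by
  have ht : D.tau 1 = D.c := h2
  have hr : ∀ r : R, r + 1 * (r + D.bar r) = D.bar r := by
    intro r
    have := D.two r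
    linear_combination this
  refine ⟨by rw [one_mul]; exact h1, ?_, ?_, ?_⟩
  · intro r
    rw [ht, hr]
    exact D.hac r
  · intro r
    rw [ht, hr]
    exact D.hbc r
  · rw [ht]
    have hc := D.c2
    calc D.c * D.Q = D.c * (D.Y * D.Yb) := rfl
      _ = D.c * D.Y * 1 * D.Yb * 1 := by group
      _ = D.c * D.Y * (D.c * D.c) * D.Yb * (D.c * D.c) := by rw [hc]
      _ = (D.c * D.Y * D.c) * (D.c * D.Yb * D.c) * D.c := by group
      _ = D.Yb * D.Y * D.c := by rw [D.hcY, D.hcYb]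
      _ = D.Y * D.Yb * D.c := by rw [D.YYb]
      _ = D.Q * D.c := rfl

theorem hRI1 : StRI1 := by
  intro hRS1 hRN hRT _ R _ _ G _ D hz hdel
  obtain ⟨hn1, -, hn3, hn4, -, -, -, hn8⟩ := hRN R G D hz
  refine ⟨gd_one D hn3 hn4, ?_⟩
  obtain ⟨htt, ht1, -, -, -, -, ht7, ht8⟩ := hRT hRN R G D hz (D.e : R) D.bar_e
  obtain ⟨hcom, -⟩ := ht8 hn8
  have hde : (D.y : R) * (D.yb : R) * (D.e : R) = 1 := by
    have h : ((D.y * D.yb : Rˣ) : R) * (((D.y * D.yb)⁻¹ : Rˣ) : R) = 1 := Units.mul_inv _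
    rw [Units.val_mul] at h
    exact h
  have hT' : D.a (D.e : R) * D.b 1 * D.a (D.e : R) * D.b 1 = D.tau (D.e : R) := by
    have h : (D.a 1 * D.b (D.e : R) * D.a 1 * D.b (D.e : R)) *
      (D.a (D.e : R) * D.b 1 * D.a (D.e : R) * D.b 1) = 1 := hdel
    rw [hcom, ← htt] at h
    exact mul_left_cancel h
  have hQ : D.Q * D.tau (D.e : R) * D.Q⁻¹ = D.tau (D.e : R) := by
    have e1 : D.Q * D.a 1 * D.Q⁻¹ = D.a (D.e : R) := by rw [D.aQinv, mul_one]
    have e2 : D.Q * D.b (D.e : R) * D.Q⁻¹ = D.b 1 := by rw [D.bQinv, hde]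
    calc D.Q * D.tau (D.e : R) * D.Q⁻¹ =
        D.Q * (D.a 1 * D.b (D.e : R) * D.a 1 * D.b (D.e : R)) * D.Q⁻¹ := by rw [hcom]
      _ = (D.Q * D.a 1 * D.Q⁻¹) * (D.Q * D.b (D.e : R) * D.Q⁻¹) * (D.Q * D.a 1 * D.Q⁻¹) *
          (D.Q * D.b (D.e : R) * D.Q⁻¹) := by group
      _ = D.tau (D.e : R) := by rw [e1, e2, hT']
  have hA := key hRS1 D htt hQ (u := 1) (v := 1) (by
    rw [ht1]
    calc D.a 1 * D.tau (D.e : R) * D.tau (D.e : R) =
        D.a 1 * (D.tau (D.e : R) * D.tau (D.e : R)) := by group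
      _ = D.a 1 := by rw [htt, mul_one])
  have hB := key hRS1 D htt hQ (u := (D.y : R)) (v := (D.y : R) + (D.e : R)) (by
    rw [hT'] at ht7
    rw [D.a_add]
    have hp := D.aa (D.y : R)
    calc D.tau (D.e : R) * D.a (D.y : R) * D.tau (D.e : R) =
        1 * (D.tau (D.e : R) * D.a (D.y : R)) * D.tau (D.e : R) := by group
      _ = (D.a (D.y : R) * D.a (D.y : R)) * (D.tau (D.e : R) * D.a (D.y : R)) *
          D.tau (D.e : R) := by rw [hp]
      _ = D.a (D.y : R) * (D.a (D.y : R) * D.tau (D.e : R) * D.a (D.y : R)) *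
          D.tau (D.e : R) := by group
      _ = D.a (D.y : R) * (D.a (D.e : R) * D.tau (D.e : R)) * D.tau (D.e : R) := by rw [ht7]
      _ = D.a (D.y : R) * D.a (D.e : R) * (D.tau (D.e : R) * D.tau (D.e : R)) := by group
      _ = D.a (D.y : R) * D.a (D.e : R) := by rw [htt, mul_one])
  have hta : ∀ r, D.tau (D.e : R) * D.a r * D.tau (D.e : R) =
      D.a (r + (D.e : R) * (r + D.bar r)) := by
    intro r
    obtain ⟨α, γ, hα, hγ, hr⟩ := (hRS1 R G D).2.2.1 r
    have h1 := hA α hα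
    have h2 := hB γ hγ
    rw [mul_one] at h1
    have hbr : r + D.bar r = γ := by
      rw [hr, map_add, map_mul, hα, hγ, D.bary]
      have h3 := D.hy
      have h4 := D.two α
      linear_combination h4 + γ * h3
    have e1 : r + (D.e : R) * (r + D.bar r) = α + γ * ((D.y : R) + (D.e : R)) := by
      rw [hbr, hr]
      ring
    rw [e1, D.a_add, ← h2, hr, D.a_add]
    nth_rewrite 2 [← h1]
    calc D.tau (D.e : R) * (D.a α * D.a (γ * (D.y : R))) * D.tau (D.e : R) =
        D.tau (D.e : R) * D.a α * 1 * D.a (γ * (D.y : R)) * D.tau (D.e : R) := by group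
      _ = D.tau (D.e : R) * D.a α * (D.tau (D.e : R) * D.tau (D.e : R)) *
          D.a (γ * (D.y : R)) * D.tau (D.e : R) := by rw [htt]
      _ = D.tau (D.e : R) * D.a α * D.tau (D.e : R) *
          (D.tau (D.e : R) * D.a (γ * (D.y : R)) * D.tau (D.e : R)) := by group
  have hw : D.w * D.tau (D.e : R) * D.w = D.tau (D.e : R) := by
    have hww := D.ww
    have e3 : D.w * D.tau (D.e : R) * D.w =
        D.b 1 * D.a (D.e : R) * D.b 1 * D.a (D.e : R) := by
      calc D.w * D.tau (D.e : R) * D.w =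
          D.w * (D.a 1 * D.b (D.e : R) * D.a 1 * D.b (D.e : R)) * D.w := by rw [hcom]
        _ = D.w * D.a 1 * 1 * D.b (D.e : R) * 1 * D.a 1 * 1 * D.b (D.e : R) * D.w := by group
        _ = D.w * D.a 1 * (D.w * D.w) * D.b (D.e : R) * (D.w * D.w) * D.a 1 * (D.w * D.w) *
            D.b (D.e : R) * D.w := by rw [hww]
        _ = (D.w * D.a 1 * D.w) * (D.w * D.b (D.e : R) * D.w) * (D.w * D.a 1 * D.w) *
            (D.w * D.b (D.e : R) * D.w) := by group
        _ = D.b 1 * D.a (D.e : R) * D.b 1 * D.a (D.e : R) := by rw [D.aw, D.bw]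
    have e4 : D.b 1 * D.a (D.e : R) * D.b 1 * D.a (D.e : R) = (D.tau (D.e : R))⁻¹ := by
      rw [← hT', mul_inv_rev, mul_inv_rev, mul_inv_rev, D.ainv, D.binv]
      group
    rw [e3, e4]
    exact inv_eq_of_mul_eq_one_left htt
  refine ⟨hn8, hta, ?_, ?_⟩
  · intro r
    have hww := D.ww
    have h5 := hta r
    calc D.tau (D.e : R) * D.b r * D.tau (D.e : R) =
        D.tau (D.e : R) * (D.w * D.a r * D.w) * D.tau (D.e : R) := by rw [D.aw]
      _ = (D.w * D.tau (D.e : R) * D.w) * (D.w * D.a r * D.w) *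
          (D.w * D.tau (D.e : R) * D.w) := by rw [hw]
      _ = D.w * D.tau (D.e : R) * (D.w * D.w) * D.a r * (D.w * D.w) * D.tau (D.e : R) *
          D.w := by group
      _ = D.w * (D.tau (D.e : R) * D.a r * D.tau (D.e : R)) * D.w := by rw [hww]; group
      _ = D.w * D.a (r + (D.e : R) * (r + D.bar r)) * D.w := by rw [h5]
      _ = D.b (r + (D.e : R) * (r + D.bar r)) := D.aw _
  · calc D.tau (D.e : R) * D.Q = D.Q * D.tau (D.e : R) * D.Q⁻¹ * D.Q := by rw [hQ]
      _ = D.Q * D.tau (D.e : R) := by group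

end Pool.Agent.Helper29.RK
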